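import Pool.Agent.U307.RAD.Stm3

/-!
# Project RAD, package IGR (helper574): integrability of exponential sums
-/

set_option autoImplicit false

open MeasureTheory Filter Topology Set

namespace Pool.Agent.U574.RAD

open Pool.Agent.U307.RAD

theorem igr {h : ℝ → ℝ} (hc : Continuous h) (C : ℝ)
    (hb : ∀ y : ℝ, 0 < y → |h y| ≤ C * Real.exp (-(y / 8)) ^ 2) : IntegrableOn h (Ioi 0) := by
  have h1 : IntegrableOn (fun x : ℝ => C * Real.exp (-(1 / 4) * x)) (Ioi 0) :=
    (exp_neg_integrableOn_Ioi 0 (by norm_num : (0 : ℝ) < 1 / 4)).const_mul C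
  refine Integrable.mono' h1 hc.aestronglyMeasurable ?_
  rw [ae_restrict_iff' measurableSet_Ioi]
  refine Eventually.of_forall fun y hy => ?_
  have h2 := hb y hy
  rw [Real.norm_eq_abs]
  have e : Real.exp (-(y / 8)) ^ 2 = Real.exp (-(1 / 4) * y) := by
    rw [← Real.exp_nat_mul]
    congr 1
    push_cast
    ring
  rw [e] at h2
  exact h2

theorem gg_cont (n l : ℕ) : Continuous (gg n l) := by
  unfold gg
  fun_prop

theorem t_IGR : S_IGR := by
  intro n l c hl
  have hl1 : (1 : ℝ) ≤ l := by exact_mod_cast hl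
  set M : ℝ := ∑ i ∈ Finset.range (n + 1), |aa n l i| with hM
  have hM0 : 0 ≤ M := Finset.sum_nonneg fun _ _ => abs_nonneg _
  have hu : ∀ y : ℝ, 0 < y → 0 < Real.exp (-(y / 8)) ∧ Real.exp (-(y / 8)) ≤ 1 := fun y hy =>
    ⟨Real.exp_pos _, Real.exp_le_one_iff.2 (by linarith)⟩
  have hg : ∀ y : ℝ, 0 < y → |gg n l y| ≤ M * Real.exp (-(y / 8)) ^ 4 := by
    intro y hy
    unfold gg
    refine (Finset.abs_sum_le_sum_abs _ _).trans ?_
    rw [hM, Finset.sum_mul]
    refine Finset.sum_le_sum fun i _ => ?_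
    rw [abs_mul, abs_of_pos (Real.exp_pos _)]
    refine mul_le_mul_of_nonneg_left ?_ (abs_nonneg _)
    rw [← Real.exp_nat_mul]
    apply Real.exp_le_exp.2
    push_cast
    have hi : (0 : ℝ) ≤ i := Nat.cast_nonneg i
    nlinarith
  have hyc : ∀ y : ℝ, 0 < y → |y - c| * Real.exp (-(y / 8)) ≤ |c| + 8 := by
    intro y hy
    obtain ⟨h0, h1⟩ := hu y hy
    have h2 : |y - c| ≤ y + |c| := by
      have := abs_sub y c
      rwa [abs_of_pos hy] at this
    have h3 : y * Real.exp (-(y / 8)) ≤ 8 := by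
      have h4 := Real.add_one_le_exp (y / 8)
      have h5 : Real.exp (y / 8) * Real.exp (-(y / 8)) = 1 := by
        rw [← Real.exp_add, add_neg_cancel, Real.exp_zero]
      nlinarith
    calc |y - c| * Real.exp (-(y / 8)) ≤ (y + |c|) * Real.exp (-(y / 8)) :=
          mul_le_mul_of_nonneg_right h2 h0.le
      _ = y * Real.exp (-(y / 8)) + |c| * Real.exp (-(y / 8)) := by ring
      _ ≤ 8 + |c| * 1 := add_le_add h3 (mul_le_mul_of_nonneg_left h1 (abs_nonneg _))
      _ = |c| + 8 := by ring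
  have hyg : ∀ y : ℝ, 0 < y → |(y - c) * gg n l y| ≤ ((|c| + 8) * M) * Real.exp (-(y / 8)) ^ 3 := by
    intro y hy
    obtain ⟨h0, h1⟩ := hu y hy
    rw [abs_mul]
    calc |y - c| * |gg n l y| ≤ |y - c| * (M * Real.exp (-(y / 8)) ^ 4) :=
          mul_le_mul_of_nonneg_left (hg y hy) (abs_nonneg _)
      _ = (|y - c| * Real.exp (-(y / 8))) * (M * Real.exp (-(y / 8)) ^ 3) := by ring
      _ ≤ (|c| + 8) * (M * Real.exp (-(y / 8)) ^ 3) :=
          mul_le_mul_of_nonneg_right (hyc y hy) (by positivity)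
      _ = _ := by ring
  have hpow : ∀ y : ℝ, 0 < y → ∀ k : ℕ, 2 ≤ k →
      Real.exp (-(y / 8)) ^ k ≤ Real.exp (-(y / 8)) ^ 2 := fun y hy k hk =>
    pow_le_pow_of_le_one (hu y hy).1.le (hu y hy).2 hk
  have hgc := gg_cont n l
  refine ⟨igr hgc M fun y hy => ?_, igr (hgc.pow 2) (M ^ 2) fun y hy => ?_,
    igr ((continuous_id.sub continuous_const).mul hgc) ((|c| + 8) * M) fun y hy => ?_,
    igr (((continuous_id.sub continuous_const).mul hgc).pow 2) (((|c| + 8) * M) ^ 2) fun y hy => ?_⟩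
  · exact (hg y hy).trans (mul_le_mul_of_nonneg_left (hpow y hy 4 (by norm_num)) hM0)
  · rw [abs_pow]
    calc |gg n l y| ^ 2 ≤ (M * Real.exp (-(y / 8)) ^ 4) ^ 2 :=
          pow_le_pow_left₀ (abs_nonneg _) (hg y hy) 2
      _ = M ^ 2 * Real.exp (-(y / 8)) ^ 8 := by ring
      _ ≤ M ^ 2 * Real.exp (-(y / 8)) ^ 2 :=
          mul_le_mul_of_nonneg_left (hpow y hy 8 (by norm_num)) (by positivity)
  · exact (hyg y hy).trans (mul_le_mul_of_nonneg_left (hpow y hy 3 (by norm_num)) (by positivity))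
  · rw [abs_pow]
    calc |(y - c) * gg n l y| ^ 2 ≤ (((|c| + 8) * M) * Real.exp (-(y / 8)) ^ 3) ^ 2 :=
          pow_le_pow_left₀ (abs_nonneg _) (hyg y hy) 2
      _ = ((|c| + 8) * M) ^ 2 * Real.exp (-(y / 8)) ^ 6 := by ring
      _ ≤ ((|c| + 8) * M) ^ 2 * Real.exp (-(y / 8)) ^ 2 :=
          mul_le_mul_of_nonneg_left (hpow y hy 6 (by norm_num)) (by positivity)

end Pool.Agent.U574.RAD
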